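import Pool.Agent.H632.Gr.Fin

set_option autoImplicit false

open Set Filter Topology Asymptotics

namespace Pool.Agent.Results.MP_5f3cbe_lc.GrowthClasses

/-- The open unit disc. -/
abbrev Disc : Set ℂ := Metric.ball (0:ℂ) 1

/-- `f : 𝔻 → ℂ` is holomorphic: it is the restriction to the open unit disc of some `g : ℂ → ℂ`
which is complex differentiable at every point of the disc. -/
def IsHol (f : Disc → ℂ) : Prop :=
  ∃ g : ℂ → ℂ, DifferentiableOn ℂ g Disc ∧ ∀ z : Disc, f z = g z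

theorem isHol_mul {a b : Disc → ℂ} (ha : IsHol a) (hb : IsHol b) : IsHol (a * b) := by
  obtain ⟨g, hg, hg'⟩ := ha
  obtain ⟨h, hh, hh'⟩ := hb
  exact ⟨g * h, hg.mul hh, fun z => by simp only [Pi.mul_apply]; rw [hg' z, hh' z]⟩

theorem isHol_add {a b : Disc → ℂ} (ha : IsHol a) (hb : IsHol b) : IsHol (a + b) := by
  obtain ⟨g, hg, hg'⟩ := ha
  obtain ⟨h, hh, hh'⟩ := hb
  exact ⟨g + h, hg.add hh, fun z => by simp only [Pi.add_apply]; rw [hg' z, hh' z]⟩

theorem isHol_neg {a : Disc → ℂ} (ha : IsHol a) : IsHol (-a) := by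
  obtain ⟨g, hg, hg'⟩ := ha
  exact ⟨-g, hg.neg, fun z => by simp only [Pi.neg_apply]; rw [hg' z]⟩

theorem isHol_one : IsHol 1 := ⟨1, differentiableOn_const _, fun _ => rfl⟩

theorem isHol_zero : IsHol 0 := ⟨0, differentiableOn_const _, fun _ => rfl⟩

/-- The ring `H(𝔻)` of all holomorphic functions on the open unit disc, with pointwise addition and
multiplication. -/
def HolDisc : Subring (Disc → ℂ) where
  carrier := {f | IsHol f}
  mul_mem' := isHol_mul
  one_mem' := isHol_one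
  add_mem' := isHol_add
  zero_mem' := isHol_zero
  neg_mem' := isHol_neg

open Classical in
/-- The value `f(z)` for `z` in the disc (and the irrelevant value `0` for `z` outside it). -/
noncomputable def ev (f : HolDisc) (z : ℂ) : ℂ :=
  if h : z ∈ Disc then f.1 ⟨z, h⟩ else 0

/-- The Nevanlinna characteristic `T(r, f) = (1/2π) ∫₀^{2π} log⁺ |f(r e^{iθ})| dθ`. -/
noncomputable def T (r : ℝ) (f : HolDisc) : ℝ :=
  (2 * Real.pi)⁻¹ * ∫ θ in (0:ℝ)..(2 * Real.pi),
    Real.posLog ‖ev f ((r : ℂ) * Complex.exp ((θ : ℂ) * Complex.I))‖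

/-- `f` is admissible: `T(r, f)` is not `O(log (1/(1-r)))` as `r` tends to `1` from below. -/
def Admissible (f : HolDisc) : Prop :=
  ∀ C : ℝ, ∀ r₀ < (1:ℝ), ∃ r, r₀ < r ∧ r < 1 ∧ C * Real.log (1 / (1 - r)) < T r f

/-- `T(r, f) = O((1-r)^{-m})` as `r` tends to `1` from below. -/
def GrowthAtMost (m : ℕ) (f : HolDisc) : Prop :=
  ∃ C : ℝ, ∃ r₀ < (1:ℝ), ∀ r, r₀ < r → r < 1 → T r f ≤ C / (1 - r) ^ m

/-- The first-order formula `φ(x)` of the language of rings holds in the ring `H(𝔻)` at `x = f`;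
quantifiers range over `H(𝔻)`. -/
def Holds (φ : FirstOrder.Language.ring.Formula (Fin 1)) (f : HolDisc) : Prop :=
  @FirstOrder.Language.Formula.Realize FirstOrder.Language.ring HolDisc
    (FirstOrder.Ring.compatibleRingOfRing HolDisc).toStructure (Fin 1) φ (fun _ => f)

/-- The property `P` of elements of `H(𝔻)` is first-order: it is defined by a parameter-free
formula of the language of rings. -/
def FirstOrderProperty (P : HolDisc → Prop) : Prop :=
  ∃ φ : FirstOrder.Language.ring.Formula (Fin 1), ∀ f : HolDisc, Holds φ f ↔ P f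

open Pool.Agent.Helper632.Adm Pool.Agent.H632.Gr

/-- the restriction map from the model of the ring used in the helper files -/
noncomputable def toHol : HD →+* HolDisc where
  toFun f := ⟨fun z => f.1 z, f.1, diff f, fun _ => rfl⟩
  map_one' := rfl
  map_mul' _ _ := rfl
  map_zero' := rfl
  map_add' _ _ := rfl

theorem toHol_bij : Function.Bijective toHol := by
  constructor
  · intro f g h
    apply ext'
    intro z hz
    have h1 := congrArg (fun k : HolDisc => k.1 ⟨z, hz⟩) h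
    exact h1
  · rintro ⟨f, g, hg, hg'⟩
    refine ⟨mkH g hg, ?_⟩
    apply Subtype.ext
    funext z
    change (mkH g hg).1 z = f z
    rw [mkH_apply hg z.2, hg' z]

noncomputable def eqv : HD ≃+* HolDisc := RingEquiv.ofBijective toHol toHol_bij

theorem T_eqv (f : HD) {r : ℝ} (h0 : -1 < r) (h1 : r < 1) : T r (eqv f) = Tc f.1 r := by
  unfold T Tc
  congr 1
  apply intervalIntegral.integral_congr
  intro θ _
  have hz : (r : ℂ) * Complex.exp ((θ : ℂ) * Complex.I) ∈ Metric.ball (0:ℂ) 1 := by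
    rw [mem_ball_zero_iff, norm_mul, Complex.norm_exp_ofReal_mul_I, mul_one, Complex.norm_real,
      Real.norm_eq_abs, abs_lt]
    exact ⟨h0, h1⟩
  have : ev (eqv f) ((r : ℂ) * Complex.exp ((θ : ℂ) * Complex.I))
      = f.1 ((r : ℂ) * Complex.exp ((θ : ℂ) * Complex.I)) := by
    unfold ev
    rw [dif_pos hz]
    rfl
  simp only [this]

theorem Tc_nonneg' (f : ℂ → ℂ) (r : ℝ) : 0 ≤ Tc f r := by
  unfold Tc
  apply mul_nonneg (by positivity)
  apply intervalIntegral.integral_nonneg (by positivity)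
  intro θ _
  exact Real.posLog_nonneg

theorem bigO_iff {u v : ℝ → ℝ} (hu : ∀ r, 0 ≤ u r) (hv : ∀ r, 0 < r → r < 1 → 0 ≤ v r) :
    u =O[𝓝[<] (1:ℝ)] v ↔ ∃ C : ℝ, ∃ r₀ < (1:ℝ), ∀ r, r₀ < r → r < 1 → u r ≤ C * v r := by
  constructor
  · intro h
    obtain ⟨C, hC⟩ := h.bound
    rw [eventually_nhdsWithin_iff] at hC
    obtain ⟨l, l', h2, h3⟩ := (mem_nhds_iff_exists_Ioo_subset.1 hC)
    refine ⟨C, max l 0, max_lt h2.1 one_pos, fun r h4 h5 => ?_⟩
    have h6 := h3 ⟨lt_of_le_of_lt (le_max_left _ _) h4, lt_trans h5 h2.2⟩ h5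
    have h7 : 0 < r := lt_of_le_of_lt (le_max_right _ _) h4
    rwa [Real.norm_of_nonneg (hu r), Real.norm_of_nonneg (hv r h7 h5)] at h6
  · rintro ⟨C, r₀, h0, h⟩
    apply IsBigO.of_bound C
    filter_upwards [Ioo_mem_nhdsLT (max_lt h0 one_pos)] with r hr
    have h7 : 0 < r := lt_of_le_of_lt (le_max_right _ _) hr.1
    rw [Real.norm_of_nonneg (hu r), Real.norm_of_nonneg (hv r h7 hr.2)]
    exact h r (lt_of_le_of_lt (le_max_left _ _) hr.1) hr.2

theorem Tc_le_iff (f : HD) {v : ℝ → ℝ} :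
    (∃ C : ℝ, ∃ r₀ < (1:ℝ), ∀ r, r₀ < r → r < 1 → Tc f.1 r ≤ C * v r) ↔
    ∃ C : ℝ, ∃ r₀ < (1:ℝ), ∀ r, r₀ < r → r < 1 → T r (eqv f) ≤ C * v r := by
  constructor
  · rintro ⟨C, r₀, h0, h⟩
    refine ⟨C, max r₀ 0, max_lt h0 one_pos, fun r h1 h2 => ?_⟩
    rw [T_eqv f (by linarith [lt_of_le_of_lt (le_max_right r₀ 0) h1]) h2]
    exact h r (lt_of_le_of_lt (le_max_left _ _) h1) h2
  · rintro ⟨C, r₀, h0, h⟩
    refine ⟨C, max r₀ 0, max_lt h0 one_pos, fun r h1 h2 => ?_⟩
    rw [← T_eqv f (by linarith [lt_of_le_of_lt (le_max_right r₀ 0) h1]) h2]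
    exact h r (lt_of_le_of_lt (le_max_left _ _) h1) h2

theorem admissible_iff (f : HD) : Admissible (eqv f) ↔
    ¬ (fun r : ℝ => Tc f.1 r) =O[𝓝[<] (1:ℝ)] fun r : ℝ => Real.log (1 - r)⁻¹ := by
  rw [bigO_iff (fun r => Tc_nonneg' _ _) (fun r h0 h1 => Real.log_nonneg
    ((one_le_inv₀ (by linarith)).2 (by linarith))), Tc_le_iff]
  unfold Admissible
  simp only [one_div]
  push Not
  rfl

theorem growth_iff (m : ℕ) (f : HD) : GrowthAtMost m (eqv f) ↔
    (fun r : ℝ => Tc f.1 r) =O[𝓝[<] (1:ℝ)] fun r : ℝ => ((1 - r) ^ m)⁻¹ := by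
  rw [bigO_iff (fun r => Tc_nonneg' _ _) (fun r h0 h1 => by
    have : 0 < 1 - r := by linarith
    positivity), Tc_le_iff]
  unfold GrowthAtMost
  simp only [div_eq_mul_inv]

theorem transfer {P : HD → Prop} {Q : HolDisc → Prop} (h : ∀ f, Q (eqv f) ↔ P f)
    (hP : ∃ φ : FirstOrder.Language.ring.Formula (Fin 1), ∀ f : HD,
      @FirstOrder.Language.Formula.Realize FirstOrder.Language.ring HD
        (FirstOrder.Ring.compatibleRingOfRing HD).toStructure (Fin 1) φ (fun _ => f) ↔ P f) :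
    FirstOrderProperty Q := by
  obtain ⟨φ, hφ⟩ := hP
  let i1 := FirstOrder.Ring.compatibleRingOfRing HD
  let i2 := FirstOrder.Ring.compatibleRingOfRing HolDisc
  refine ⟨φ, fun f => ?_⟩
  obtain ⟨g, rfl⟩ := eqv.surjective f
  rw [h g, ← hφ g]
  exact FirstOrder.Language.StrongHomClass.realize_formula
    (FirstOrder.Ring.languageEquivEquivRingEquiv.symm eqv) φ (v := fun _ => g)

/-- In the ring `H(𝔻)` of holomorphic functions on the unit disc, the following are first-order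
properties of `f` (parameter-free formulas of the language of rings): `f` is admissible; for each
`m`, `T(r, f) = O((1-r)^{-m})` (for `m = 0`: `f` has bounded characteristic); `f` has finite order
of growth, i.e. `T(r, f) = O((1-r)^{-m})` for some `m`. -/
theorem result :
    FirstOrderProperty Admissible ∧
    (∀ m : ℕ, FirstOrderProperty (GrowthAtMost m)) ∧
    FirstOrderProperty (fun f => ∃ m : ℕ, GrowthAtMost m f) := by
  let i1 := FirstOrder.Ring.compatibleRingOfRing HD
  refine ⟨?_, fun m => ?_, ?_⟩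
  · obtain ⟨φ, hφ⟩ := exists_formula
    refine transfer (P := fun f => ¬ NA f) (fun f => ?_) ⟨φ, hφ⟩
    rw [admissible_iff, NA_iff]
  · exact transfer (fun f => growth_iff m f) (exists_formula_pow m)
  · exact transfer (fun f => exists_congr fun m => growth_iff m f) exists_formula_order

end Pool.Agent.Results.MP_5f3cbe_lc.GrowthClasses
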